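import Pool.Agent.R817.Scaling

/-!
# A homogeneous non-Hausdorff `3`-manifold in which `NH(z)` is a `2`-torus for every `z`
-/

set_option autoImplicit false

open Set Topology Filter

namespace Pool.Agent.Results.MP_861644_gt.SingleTorus

/-- `M` is an `n`-manifold, Hausdorff or not: it is connected and every point has an open
neighbourhood homeomorphic to `ℝⁿ`. -/
def IsManifold (n : ℕ) (M : Type) [TopologicalSpace M] : Prop :=
  ConnectedSpace M ∧ ∀ x : M, ∃ U : Set M, IsOpen U ∧ x ∈ U ∧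
    Nonempty (U ≃ₜ EuclideanSpace ℝ (Fin n))

/-- `M` is homogeneous. -/
def IsHomogeneous (M : Type) [TopologicalSpace M] : Prop :=
  ∀ x y : M, ∃ h : M ≃ₜ M, h x = y

/-- `M` is an HNH-`n`-manifold: an `n`-manifold which is homogeneous and not Hausdorff. -/
def IsHNHManifold (n : ℕ) (M : Type) [TopologicalSpace M] : Prop :=
  IsManifold n M ∧ IsHomogeneous M ∧ ¬ T2Space M

/-- `NH(z)`: the set of the points `y ≠ z` such that every open neighbourhood of `y` meets every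
open neighbourhood of `z` (it carries the subspace topology). -/
def NH {M : Type} [TopologicalSpace M] (z : M) : Set M :=
  {y | y ≠ z ∧ ∀ U V : Set M, IsOpen U → IsOpen V → y ∈ U → z ∈ V → (U ∩ V).Nonempty}

theorem general {N : Type} [AddCommGroup N] [TopologicalSpace N] [IsTopologicalAddGroup N]
    [T2Space N] [ConnectedSpace N] {n : ℕ}
    (hN : ∀ v : N, ∃ V : Set N, IsOpen V ∧ v ∈ V ∧ Nonempty (V ≃ₜ (Fin n → ℝ)))
    (ψ : ℝ →+ N) (hψ : Continuous ψ) (hd : DenseRange ψ) :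
    ∃ (M : Type) (_ : TopologicalSpace M), IsHNHManifold (n + 1) M ∧
      ∀ z : M, Nonempty (NH z ≃ₜ N) := by
  obtain ⟨M, _, h1, h2, h3⟩ := Pool.Agent.R817.Twist.exists_manifold hN ψ hψ hd
  refine ⟨M, inferInstance, ⟨h1, h2, fun ht => ?_⟩, h3⟩
  obtain ⟨z⟩ := h1.1.toNonempty
  obtain ⟨e⟩ := h3 z
  obtain ⟨y, hy1, hy2⟩ := e.symm 0
  obtain ⟨U, V, hU, hV, hyU, hzV, hUV⟩ := t2_separation hy1
  obtain ⟨x, hx1, hx2⟩ := hy2 U V hU hV hyU hzV
  exact disjoint_left.1 hUV hx1 hx2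

instance : Fact (0 < Real.pi) := ⟨Real.pi_pos⟩

lemma circle_locally (v : AddCircle Real.pi) : ∃ V : Set (AddCircle Real.pi), IsOpen V ∧ v ∈ V ∧
    Nonempty (V ≃ₜ ℝ) := by
  -- the complement of a point is homeomorphic to `(-π/2, π/2)`
  have h1 : Nonempty ((({((-(Real.pi / 2) : ℝ) : AddCircle Real.pi)} : Set (AddCircle Real.pi))ᶜ :
      Set (AddCircle Real.pi)) ≃ₜ ℝ) := by
    let φ := AddCircle.openPartialHomeomorphCoe Real.pi (-(Real.pi / 2))
    have e1 := φ.toHomeomorphSourceTarget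
    have e2 : (Ioo (-(Real.pi / 2)) (-(Real.pi / 2) + Real.pi) : Set ℝ) ≃ₜ
        (Ioo (-(Real.pi / 2)) (Real.pi / 2) : Set ℝ) :=
      Homeomorph.setCongr (by congr 1; ring)
    have e3 : (Ioo (-(Real.pi / 2)) (Real.pi / 2) : Set ℝ) ≃ₜ ℝ :=
      Real.tanOrderIso.toHomeomorph
    exact ⟨e1.symm.trans (e2.trans e3)⟩
  obtain ⟨e⟩ := h1
  -- translate
  let c : AddCircle Real.pi := ((-(Real.pi / 2) : ℝ) : AddCircle Real.pi)
  obtain ⟨w, hw⟩ : ∃ w : AddCircle Real.pi, w ≠ c := by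
    obtain ⟨x⟩ : Nonempty ({c}ᶜ : Set (AddCircle Real.pi)) := ⟨e.symm 0⟩
    exact ⟨x.1, x.2⟩
  let T : AddCircle Real.pi ≃ₜ AddCircle Real.pi := Homeomorph.addRight (v - w)
  refine ⟨T '' {c}ᶜ, T.isOpenMap _ isOpen_compl_singleton, ⟨w, hw, by simp [T]⟩, ?_⟩
  exact ⟨(T.image {c}ᶜ).symm.trans e⟩

lemma torus_locally (v : AddCircle Real.pi × AddCircle Real.pi) :
    ∃ V : Set (AddCircle Real.pi × AddCircle Real.pi), IsOpen V ∧ v ∈ V ∧
      Nonempty (V ≃ₜ (Fin 2 → ℝ)) := by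
  obtain ⟨V₁, h1, h2, ⟨e₁⟩⟩ := circle_locally v.1
  obtain ⟨V₂, h3, h4, ⟨e₂⟩⟩ := circle_locally v.2
  refine ⟨V₁ ×ˢ V₂, h1.prod h3, ⟨h2, h4⟩, ?_⟩
  exact ⟨(Homeomorph.Set.prod V₁ V₂).trans ((e₁.prodCongr e₂).trans
    (Homeomorph.finTwoArrow (X := ℝ)).symm)⟩

/-- A one-parameter subgroup of the torus. -/
noncomputable def line : ℝ →+ AddCircle Real.pi × AddCircle Real.pi :=
  (QuotientAddGroup.mk' (AddSubgroup.zmultiples Real.pi)).prod
    ((QuotientAddGroup.mk' (AddSubgroup.zmultiples Real.pi)).comp (AddMonoidHom.mulLeft √2))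

lemma line_apply (x : ℝ) :
    line x = ((x : AddCircle Real.pi), ((√2 * x : ℝ) : AddCircle Real.pi)) := rfl

lemma continuous_line : Continuous line := by
  have h : Continuous fun x : ℝ => (x : AddCircle Real.pi) := continuous_quotient_mk'
  exact h.prodMk (h.comp (continuous_const.mul continuous_id))

lemma denseRange_line : DenseRange line := by
  have hd : DenseRange (fun k : ℤ => k • ((√2 * Real.pi : ℝ) : AddCircle Real.pi)) := by
    rw [AddCircle.denseRange_zsmul_coe_iff, mul_div_assoc, div_self Real.pi_ne_zero, mul_one]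
    exact irrational_sqrt_two
  refine dense_iff_inter_open.2 ?_
  rintro U hU ⟨⟨a, b⟩, hab⟩
  obtain ⟨O₁, O₂, hO₁, hO₂, ha, hb, hO⟩ := isOpen_prod_iff.1 hU a b hab
  obtain ⟨a', rfl⟩ := QuotientAddGroup.mk_surjective a
  let c : AddCircle Real.pi := ((√2 * a' : ℝ) : AddCircle Real.pi)
  have h1 : IsOpen ((fun y => c + y) ⁻¹' O₂) := hO₂.preimage (continuous_const.add continuous_id)
  obtain ⟨k, hk⟩ := hd.exists_mem_open h1 ⟨-c + b, by simpa using hb⟩
  refine ⟨line (a' + k * Real.pi), hO ⟨?_, ?_⟩, mem_range_self _⟩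
  · have : ((a' + k * Real.pi : ℝ) : AddCircle Real.pi) = (a' : AddCircle Real.pi) := by
      have h2 : ((k * Real.pi : ℝ) : AddCircle Real.pi) = 0 := by
        rw [AddCircle.coe_eq_zero_iff]
        exact ⟨k, by simp⟩
      rw [AddCircle.coe_add, h2, add_zero]
    rw [line_apply]
    change ((a' + k * Real.pi : ℝ) : AddCircle Real.pi) ∈ O₁
    rw [this]
    exact ha
  · rw [line_apply]
    have : ((√2 * (a' + k * Real.pi) : ℝ) : AddCircle Real.pi) =
        c + k • ((√2 * Real.pi : ℝ) : AddCircle Real.pi) := by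
      rw [← AddCircle.coe_zsmul, ← AddCircle.coe_add]
      congr 1
      simp only [zsmul_eq_mul]
      ring
    change ((√2 * (a' + k * Real.pi) : ℝ) : AddCircle Real.pi) ∈ O₂
    rw [this]
    exact hk

/-- There is an HNH-`3`-manifold in which `NH(z)` is homeomorphic to the `2`-torus for
every `z`. -/
theorem result : ∃ (M : Type) (_ : TopologicalSpace M), IsHNHManifold 3 M ∧
    ∀ z : M, Nonempty (NH z ≃ₜ Circle × Circle) := by
  obtain ⟨M, _, h1, h2⟩ := general (n := 2) torus_locally line continuous_line denseRange_line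
  refine ⟨M, inferInstance, h1, fun z => ?_⟩
  obtain ⟨e⟩ := h2 z
  exact ⟨e.trans ((AddCircle.homeomorphCircle Real.pi_ne_zero).prodCongr
    (AddCircle.homeomorphCircle Real.pi_ne_zero))⟩

end Pool.Agent.Results.MP_861644_gt.SingleTorus
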